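import Pool.Agent.Y279.DS2

set_option autoImplicit false

namespace Pool.Agent.Results.MP_414e75_gt.LindelofPowers

theorem result :
    ∃ (X : Type) (_ : TopologicalSpace X),
      T1Space X ∧ HereditarilyLindelofSpace X ∧ HereditarilyLindelofSpace (ℕ → X) ∧
      ∃ N : X → Set X, (∀ x, IsOpen (N x) ∧ x ∈ N x) ∧
        ∀ (n : ℕ) (D : Fin n → Set X), (∀ j, DiscreteTopology (D j)) →
          (⋃ j, ⋃ x ∈ D j, N x) ≠ Set.univ := by
  obtain ⟨X, τ, h1, h2, U, hU, hD⟩ := Pool.Agent.Y279.DS.main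
  have hset : ∀ t : Set X, IsLindelof t := by
    intro t
    have h := (HereditarilyLindelofSpace.isHereditarilyLindelof_univ
      (X := ℕ → X) ((fun x : ℕ → X => x 0) ⁻¹' t) (Set.subset_univ _)).image
      (continuous_apply (0 : ℕ))
    rwa [Set.image_preimage_eq t (fun x => ⟨fun _ => x, rfl⟩)] at h
  refine ⟨X, τ, h1, ⟨fun t _ => hset t⟩, h2, U, hU, ?_⟩
  intro n D hDn hcov
  obtain ⟨y, hy⟩ := hD n D hDn
  have hyU : y ∈ ⋃ j, ⋃ x ∈ D j, U x := by rw [hcov]; exact Set.mem_univ _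
  simp only [Set.mem_iUnion] at hyU
  obtain ⟨j, x, hx, hyx⟩ := hyU
  exact hy j x hx hyx

end Pool.Agent.Results.MP_414e75_gt.LindelofPowers
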